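import Pool.Agent.Q29.TE.Stm

/-!
# Project TE of helper29, job CHAIN (finite groups), by helper275
-/

set_option autoImplicit false

namespace Pool.Agent.Q275.TE

open Finset Pool.Agent.Q29.TE

theorem omega_le_of_dvd {m n : ℕ} (h : m ∣ n) (hn : n ≠ 0) :
    m.primeFactorsList.length ≤ n.primeFactorsList.length :=
  (Nat.primeFactorsList_sublist_of_dvd h hn).length_le

theorem omega_mul {m n : ℕ} (hm : m ≠ 0) (hn : n ≠ 0) :
    (m * n).primeFactorsList.length = m.primeFactorsList.length + n.primeFactorsList.length := by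
  rw [(Nat.perm_primeFactorsList_mul hm hn).length_eq, List.length_append]

theorem omega_pos {n : ℕ} (h0 : n ≠ 0) (h1 : n ≠ 1) : 1 ≤ n.primeFactorsList.length := by
  rw [Nat.one_le_iff_ne_zero, Ne, List.length_eq_zero_iff, Nat.primeFactorsList_eq_nil]
  tauto

theorem chain_aux (G : Type) [Group G] [Finite G] (H : Subgroup G) (𝒦 : Finset (Subgroup G)) :
    (∀ K ∈ 𝒦, K.Normal) → (∀ K ∈ 𝒦, K.relIndex H ≤ 2) →
    (∀ K ∈ 𝒦, ∀ h ∈ H, (∀ x : G, x * h * x⁻¹ * h⁻¹ ∈ K) → h ∈ K) →
    (𝒦.inf id).Normal ∧ ∃ a : ℕ, (𝒦.inf id).relIndex H = 2 ^ a ∧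
      a ≤ (H ⊔ 𝒦.inf id).index.primeFactorsList.length := by
  classical
  induction 𝒦 using Finset.induction_on with
  | empty =>
    intro _ _ _
    rw [Finset.inf_empty]
    refine ⟨inferInstance, 0, ?_, Nat.zero_le _⟩
    rw [Subgroup.relIndex_top_left, pow_zero]
  | insert K s hK ih =>
    intro hn h2 hc
    obtain ⟨hLn, a, ha, hle⟩ := ih (fun K' hK' => hn K' (mem_insert_of_mem hK'))
      (fun K' hK' => h2 K' (mem_insert_of_mem hK')) (fun K' hK' => hc K' (mem_insert_of_mem hK'))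
    have hKn : K.Normal := hn K (mem_insert_self _ _)
    have hK2 : K.relIndex H ≤ 2 := h2 K (mem_insert_self _ _)
    have hKc := hc K (mem_insert_self _ _)
    rw [Finset.inf_insert, id]
    set L : Subgroup G := s.inf id with hL
    have hLn' : (K ⊓ L).Normal := inferInstance
    refine ⟨hLn', ?_⟩
    have hdvd : (H ⊔ L).index ∣ (H ⊔ K ⊓ L).index :=
      Subgroup.index_dvd_of_le (sup_le_sup_left inf_le_right H)
    have hi1 : (H ⊔ L).index ≠ 0 := Subgroup.index_ne_zero_of_finite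
    have hi2 : (H ⊔ K ⊓ L).index ≠ 0 := Subgroup.index_ne_zero_of_finite
    -- the relative index
    have hrel : (K ⊓ L).relIndex H = K.relIndex (L ⊓ H) * L.relIndex H :=
      (Subgroup.relIndex_inf_mul_relIndex K L H).symm
    by_cases hcase : L ⊓ H ≤ K
    · refine ⟨a, ?_, hle.trans (omega_le_of_dvd hdvd hi2)⟩
      rw [hrel, Subgroup.relIndex_eq_one.mpr hcase, one_mul, ha]
    · obtain ⟨h, hh, hhK⟩ := Set.not_subset.mp hcase
      have hhL : h ∈ L := (Subgroup.mem_inf.mp hh).1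
      have hhH : h ∈ H := (Subgroup.mem_inf.mp hh).2
      have hr0 : K.relIndex H ≠ 0 := Subgroup.index_ne_zero_of_finite
      have hr0' : K.relIndex (L ⊓ H) ≠ 0 := Subgroup.index_ne_zero_of_finite
      have hr1' : K.relIndex (L ⊓ H) ≠ 1 := fun h1 => hcase (Subgroup.relIndex_eq_one.mp h1)
      have hr1 : K.relIndex H ≠ 1 := fun h1 =>
        hcase (inf_le_right.trans (Subgroup.relIndex_eq_one.mp h1))
      have hr2 : K.relIndex H = 2 := by omega
      have hr2' : K.relIndex (L ⊓ H) = 2 := by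
        have h3 : K.relIndex (L ⊓ H) ≤ K.relIndex H :=
          Subgroup.relIndex_le_of_le_right inf_le_right hr0
        omega
      refine ⟨a + 1, ?_, ?_⟩
      · rw [hrel, hr2', ha, pow_succ]
        ring
      · -- `H ⊔ (K ⊓ L) ≠ H ⊔ L`
        have hlt : ¬ H ⊔ L ≤ H ⊔ K ⊓ L := by
          intro hle'
          apply hhK
          refine hKc h hhH fun x => ?_
          have h3 : x * h * x⁻¹ ∈ L := hLn.conj_mem h hhL x
          have h4 : x * h * x⁻¹ ∈ H ⊔ K :=
            (sup_le_sup_left inf_le_left H) (hle' (Subgroup.mem_sup_right h3))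
          obtain ⟨y, hy, z, hz, hyz⟩ := Subgroup.mem_sup_of_normal_right.mp h4
          have h5 : x * h * x⁻¹ ∉ K := by
            intro h6
            apply hhK
            have h7 := hKn.conj_mem _ h6 x⁻¹
            have h8 : x⁻¹ * (x * h * x⁻¹) * x⁻¹⁻¹ = h := by group
            rwa [h8] at h7
          have hyK : y ∉ K := fun h6 => h5 (by
            rw [← hyz]
            exact K.mul_mem h6 hz)
          have hind : (K.subgroupOf H).index = 2 := hr2
          have h6 : (⟨y, hy⟩ : H) * (⟨h, hhH⟩ : H)⁻¹ ∈ K.subgroupOf H := by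
            rw [Subgroup.mul_mem_iff_of_index_two hind, Subgroup.inv_mem_iff,
              Subgroup.mem_subgroupOf, Subgroup.mem_subgroupOf]
            exact ⟨fun h7 => absurd h7 hyK, fun h7 => absurd h7 hhK⟩
          have h7 : y * h⁻¹ ∈ K := h6
          have h8 : h * z * h⁻¹ ∈ K := hKn.conj_mem z hz h
          have h9 : x * h * x⁻¹ * h⁻¹ = (y * h⁻¹) * (h * z * h⁻¹) := by
            rw [← hyz]
            group
          rw [h9]
          exact K.mul_mem h7 h8
        have hmul : (H ⊔ K ⊓ L).relIndex (H ⊔ L) * (H ⊔ L).index = (H ⊔ K ⊓ L).index :=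
          Subgroup.relIndex_mul_index (sup_le_sup_left inf_le_right H)
        have hq0 : (H ⊔ K ⊓ L).relIndex (H ⊔ L) ≠ 0 := Subgroup.index_ne_zero_of_finite
        have hq1 : (H ⊔ K ⊓ L).relIndex (H ⊔ L) ≠ 1 := fun h1 =>
          hlt (Subgroup.relIndex_eq_one.mp h1)
        rw [← hmul, omega_mul hq0 hi1]
        have := omega_pos hq0 hq1
        omega

theorem t_CHAIN : S_CHAIN := by
  intro G _ _ H 𝒦 hn h2 hc
  obtain ⟨hLn, a, ha, hle⟩ := chain_aux G H 𝒦 hn h2 hc
  refine ⟨a, ?_, hle⟩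
  have h1 := Subgroup.relIndex_mul_index (show 𝒦.inf id ≤ H ⊔ 𝒦.inf id from le_sup_right)
  rw [Subgroup.relIndex_sup_right, ha] at h1
  rw [← h1, mul_comm]

end Pool.Agent.Q275.TE
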