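import Pool.Agent.Q29.TE.Stm

/-!
# Project TE of helper29, job COS (cosines of residue classes), by helper275
-/

set_option autoImplicit false

namespace Pool.Agent.Q275.TE

open Finset Pool.Agent.Q29.TE Pool.Agent.TH170.MF

theorem t_COS : S_COS := by
  intro p _ M n a hp hn hM
  have hp0 : (0 : ℝ) < p := Nat.cast_pos.2 (NeZero.pos p)
  have hn0 : (0 : ℝ) < n := Nat.cast_pos.2 hn
  obtain ⟨q, hq⟩ := hp
  -- one half
  have hu : 2 * ((q + 1 : ℕ) : ZMod p) = 1 := by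
    have h1 : ((2 * (q + 1) : ℕ) : ZMod p) = ((p + 1 : ℕ) : ZMod p) := by
      congr 1
      omega
    push_cast at h1 ⊢
    rw [h1, ZMod.natCast_self, zero_add]
  set s : ZMod p := 2 * ((M : ZMod p) * a) with hs
  have h2 : (M : ZMod p) * a = ((q + 1 : ℕ) : ZMod p) * s := by
    rw [hs, ← mul_assoc, mul_comm ((q + 1 : ℕ) : ZMod p) 2, hu, one_mul]
  rw [h2, cw_half p hu s]
  refine (abs_cos_le_exp (abs_valMinAbs_le p s)).trans (Real.exp_le_exp.mpr ?_)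
  rw [neg_le_neg_iff]
  -- the comparison of the absolute values
  obtain ⟨M', hM'⟩ := hM
  have hM0 : M ≠ 0 := by
    rintro rfl
    rw [zero_mul] at hM'
    omega
  have hM'n : M'.natAbs ≤ n := by
    have h3 : n = M.natAbs * M'.natAbs := by
      rw [← Int.natAbs_mul, ← hM', Int.natAbs_natCast]
    rw [h3]
    exact Nat.le_mul_of_pos_left _ (Int.natAbs_pos.mpr hM0)
  have h4 : ((2 * (n : ZMod p) * a).valMinAbs : ZMod p) = ((M' * s.valMinAbs : ℤ) : ZMod p) := by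
    rw [ZMod.coe_valMinAbs, Int.cast_mul, ZMod.coe_valMinAbs, hs]
    have h5 : (n : ZMod p) = (M : ZMod p) * (M' : ZMod p) := by
      rw [← Int.cast_mul, ← hM']
      simp
    rw [h5]
    ring
  have h5 : (2 * (n : ZMod p) * a).valMinAbs.natAbs ≤ n * s.valMinAbs.natAbs := by
    refine (ZMod.natAbs_min_of_le_div_two p _ _ h4 (ZMod.natAbs_valMinAbs_le _)).trans ?_
    rw [Int.natAbs_mul]
    exact Nat.mul_le_mul_right _ hM'n
  have habs : ∀ z : ℤ, ((z.natAbs : ℕ) : ℝ) ^ 2 = (z : ℝ) ^ 2 := by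
    intro z
    rw [Nat.cast_natAbs, Int.cast_abs, sq_abs]
  have h6 : (((2 * (n : ZMod p) * a).valMinAbs : ℤ) : ℝ) ^ 2 ≤
      (n : ℝ) ^ 2 * ((s.valMinAbs : ℤ) : ℝ) ^ 2 := by
    rw [← habs, ← habs, ← mul_pow]
    refine pow_le_pow_left₀ (Nat.cast_nonneg _) ?_ 2
    exact_mod_cast h5
  calc Real.pi ^ 2 * (((2 * (n : ZMod p) * a).valMinAbs : ℤ) : ℝ) ^ 2 /
        (2 * (n : ℝ) ^ 2 * (p : ℝ) ^ 2) ≤ Real.pi ^ 2 * ((n : ℝ) ^ 2 *
          ((s.valMinAbs : ℤ) : ℝ) ^ 2) / (2 * (n : ℝ) ^ 2 * (p : ℝ) ^ 2) := by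
        gcongr
    _ = (Real.pi * (s.valMinAbs : ℝ) / p) ^ 2 / 2 := by
        field_simp

end Pool.Agent.Q275.TE
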