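import Pool.Agent.Q29.TE.Stm
import Pool.Agent.Q29.TD.Density

/-!
# Project TE of helper29, job DENS (numbers with a large square divisor), by helper275
-/

set_option autoImplicit false

namespace Pool.Agent.Q275.TE

open Finset Pool.Agent.Q29.TE Pool.Agent.Q29.TD

/-- the numbers with a square divisor `q ^ 2`, `q ≤ Q`, which are below `q ^ k` -/
theorem ncard_small (k Q : ℕ) (hk : 2 ≤ k) :
    {g : ℕ | 0 < g ∧ ∃ q, 0 < q ∧ q ≤ Q ∧ q ^ 2 ∣ g ∧ g < q ^ k}.Finite ∧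
    {g : ℕ | 0 < g ∧ ∃ q, 0 < q ∧ q ≤ Q ∧ q ^ 2 ∣ g ∧ g < q ^ k}.ncard ≤ Q ^ (k - 1) := by
  classical
  have h1 : {g : ℕ | 0 < g ∧ ∃ q, 0 < q ∧ q ≤ Q ∧ q ^ 2 ∣ g ∧ g < q ^ k} ⊆
      ⋃ q ∈ Finset.Ioc 0 Q, (((Finset.Ioc 0 (q ^ k)).filter fun g => q ^ 2 ∣ g : Finset ℕ) :
        Set ℕ) := by
    rintro g ⟨hg0, q, hq0, hqQ, hqg, hgq⟩
    refine Set.mem_biUnion (x := q) ?_ ?_
    · rw [Finset.mem_coe, Finset.mem_Ioc]
      exact ⟨hq0, hqQ⟩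
    · rw [Finset.mem_coe, Finset.mem_filter, Finset.mem_Ioc]
      exact ⟨⟨hg0, hgq.le⟩, hqg⟩
  have hfin : (⋃ q ∈ Finset.Ioc 0 Q, (((Finset.Ioc 0 (q ^ k)).filter fun g => q ^ 2 ∣ g :
      Finset ℕ) : Set ℕ)).Finite :=
    Set.Finite.biUnion (Finset.finite_toSet _) fun q _ => Finset.finite_toSet _
  refine ⟨hfin.subset h1, ?_⟩
  calc {g : ℕ | 0 < g ∧ ∃ q, 0 < q ∧ q ≤ Q ∧ q ^ 2 ∣ g ∧ g < q ^ k}.ncard ≤
      ∑ q ∈ Finset.Ioc 0 Q, ((Finset.Ioc 0 (q ^ k)).filter fun g => q ^ 2 ∣ g).card := by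
        refine (Set.ncard_le_ncard h1 hfin).trans ((Finset.set_ncard_biUnion_le _ _).trans
          (le_of_eq ?_))
        exact Finset.sum_congr rfl fun q _ => Set.ncard_coe_finset _
    _ ≤ ∑ q ∈ Finset.Ioc 0 Q, Q ^ (k - 2) := by
        refine Finset.sum_le_sum fun q hq => ?_
        obtain ⟨hq0, hqQ⟩ := Finset.mem_Ioc.mp hq
        rw [Nat.Ioc_filter_dvd_card_eq_div]
        have h2 : q ^ k / q ^ 2 = q ^ (k - 2) := Nat.pow_div hk hq0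
        rw [h2]
        exact Nat.pow_le_pow_left hqQ _
    _ = Q ^ (k - 1) := by
        rw [Finset.sum_const, Nat.card_Ioc, smul_eq_mul, Nat.sub_zero, ← pow_succ']
        congr 1
        omega

theorem t_DENS : S_DENS := by
  intro k hk x hx
  classical
  have hk0 : (0 : ℝ) < k := by
    have : 0 < k := by omega
    exact_mod_cast this
  have hx1 : (1 : ℝ) ≤ x := by exact_mod_cast hx
  have hx0 : (0 : ℝ) < x := by linarith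
  set y : ℝ := (x : ℝ) ^ (1 / (k : ℝ)) with hy
  have hy1 : 1 ≤ y := Real.one_le_rpow hx1 (by positivity)
  have hy0 : 0 < y := by linarith
  set Q : ℕ := ⌊y⌋₊ with hQ
  have hQ1 : 1 ≤ Q := Nat.le_floor (by exact_mod_cast hy1)
  have hQ1' : (1 : ℝ) ≤ Q := by exact_mod_cast hQ1
  have hQy : (Q : ℝ) ≤ y := Nat.floor_le hy0.le
  have hyQ : y ≤ 2 * Q := by
    have h1 : y < Q + 1 := Nat.lt_floor_add_one y
    linarith
  have hpow : (x : ℝ) ^ (1 - 1 / (k : ℝ)) = x / y := by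
    rw [Real.rpow_sub hx0, Real.rpow_one]
  have hyk : y ^ (k - 1) = (x : ℝ) ^ (1 - 1 / (k : ℝ)) := by
    rw [hy, ← Real.rpow_natCast, ← Real.rpow_mul hx0.le]
    congr 1
    have h1 : 1 ≤ k := by omega
    rw [Nat.cast_sub h1]
    field_simp
    simp
  have h1x : 1 ≤ (x : ℝ) ^ (1 - 1 / (k : ℝ)) := by
    refine Real.one_le_rpow hx1 ?_
    have h2 : 1 / (k : ℝ) ≤ 1 := by
      rw [div_le_one hk0]
      have : 1 ≤ k := by omega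
      exact_mod_cast this
    linarith
  obtain ⟨hfA, hA⟩ := ncard_small k Q hk
  have hB := ncard_square_le x Q (by omega)
  have hfB : {g : ℕ | 0 < g ∧ g ≤ x ∧ ∃ q, Q < q ∧ q ^ 2 ∣ g}.Finite :=
    (Set.finite_le_nat x).subset fun g hg => hg.2.1
  have hsub : {g : ℕ | g ≤ x ∧ ¬ SmallSquares k g} ⊆ {0} ∪
      ({g : ℕ | 0 < g ∧ ∃ q, 0 < q ∧ q ≤ Q ∧ q ^ 2 ∣ g ∧ g < q ^ k} ∪
        {g : ℕ | 0 < g ∧ g ≤ x ∧ ∃ q, Q < q ∧ q ^ 2 ∣ g}) := by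
    rintro g ⟨hgx, hns⟩
    rcases Nat.eq_zero_or_pos g with h0 | h0
    · exact Or.inl h0
    · right
      unfold SmallSquares at hns
      push Not at hns
      obtain ⟨q, hqg, hgq⟩ := hns
      have hq0 : 0 < q := by
        rcases Nat.eq_zero_or_pos q with h | h
        · rw [h, zero_pow two_ne_zero, zero_dvd_iff] at hqg
          omega
        · exact h
      rcases le_or_gt q Q with h | h
      · exact Or.inl ⟨h0, q, hq0, h, hqg, hgq⟩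
      · exact Or.inr ⟨h0, hgx, q, h, hqg⟩
  have hcard : {g : ℕ | g ≤ x ∧ ¬ SmallSquares k g}.ncard ≤ 1 +
      ({g : ℕ | 0 < g ∧ ∃ q, 0 < q ∧ q ≤ Q ∧ q ^ 2 ∣ g ∧ g < q ^ k}.ncard +
        {g : ℕ | 0 < g ∧ g ≤ x ∧ ∃ q, Q < q ∧ q ^ 2 ∣ g}.ncard) := by
    refine (Set.ncard_le_ncard hsub ((Set.finite_singleton 0).union (hfA.union hfB))).trans ?_
    refine (Set.ncard_union_le _ _).trans (add_le_add (le_of_eq (Set.ncard_singleton 0)) ?_)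
    exact Set.ncard_union_le _ _
  have hcard' : (({g : ℕ | g ≤ x ∧ ¬ SmallSquares k g}.ncard : ℕ) : ℝ) ≤ 1 +
      ((({g : ℕ | 0 < g ∧ ∃ q, 0 < q ∧ q ≤ Q ∧ q ^ 2 ∣ g ∧ g < q ^ k}.ncard : ℕ) : ℝ) +
        (({g : ℕ | 0 < g ∧ g ≤ x ∧ ∃ q, Q < q ∧ q ^ 2 ∣ g}.ncard : ℕ) : ℝ)) := by
    exact_mod_cast hcard
  have hA' : (({g : ℕ | 0 < g ∧ ∃ q, 0 < q ∧ q ≤ Q ∧ q ^ 2 ∣ g ∧ g < q ^ k}.ncard : ℕ) : ℝ) ≤
      (x : ℝ) ^ (1 - 1 / (k : ℝ)) := by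
    calc _ ≤ ((Q ^ (k - 1) : ℕ) : ℝ) := by exact_mod_cast hA
      _ = (Q : ℝ) ^ (k - 1) := by push_cast; rfl
      _ ≤ y ^ (k - 1) := pow_le_pow_left₀ (by linarith) hQy _
      _ = _ := hyk
  have hB' : (x : ℝ) / Q ≤ 2 * (x : ℝ) ^ (1 - 1 / (k : ℝ)) := by
    rw [hpow, div_le_iff₀ (by linarith), mul_assoc, div_mul_eq_mul_div, mul_div_assoc', le_div_iff₀ hy0]
    nlinarith
  linarith

end Pool.Agent.Q275.TE
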