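import Pool.Agent.Q29.TE.Stm2

/-!
# Project TE (helper29): three elementary limits
-/

set_option autoImplicit false

namespace Pool.Agent.Q275.TE

open Filter

/-- powers of the logarithm are small -/
lemma pow_log_le (k : ℕ) {c : ℝ} (hc : 0 < c) : ∃ x₀ : ℝ, 3 ≤ x₀ ∧ ∀ x : ℝ, x₀ ≤ x → Real.log x ^ k ≤ c * x := by
  have h1 := (Real.isLittleO_pow_log_id_atTop (n := k)).bound hc
  obtain ⟨x₀, hx₀⟩ := Filter.eventually_atTop.1 h1
  refine ⟨max x₀ 3, le_max_right _ _, fun x hx => ?_⟩
  have h2 := hx₀ x ((le_max_left _ _).trans hx)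
  have h3 : (3 : ℝ) ≤ x := (le_max_right _ _).trans hx
  simp only [id_eq, norm_pow, Real.norm_eq_abs] at h2
  rwa [abs_of_nonneg (Real.log_nonneg (by linarith)), abs_of_pos (by linarith)] at h2

theorem t_LIM : Pool.Agent.Q29.TE.S_LIM := by
  refine ⟨fun n => ?_, fun C ε k hε => ?_, fun ε hε => ?_⟩
  · set K : ℝ := 10 ^ 4 + 10 * Real.log (n + 1) with hK
    have hn0 : 0 ≤ Real.log ((n : ℝ) + 1) := Real.log_nonneg (by
      have : (0 : ℝ) ≤ n := Nat.cast_nonneg n
      linarith)
    have hK0 : 0 < K := by rw [hK]; linarith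
    obtain ⟨x₀, hx₀, h1⟩ := pow_log_le 3 (c := 1 / (8 * (K + 10) ^ 2)) (by positivity)
    obtain ⟨g₀, hg₀⟩ := exists_nat_ge (x₀ ^ 2)
    refine ⟨max g₀ 1, fun g d hg hd hdg => ?_⟩
    have hg1 : 1 ≤ g := (le_max_right _ _).trans hg
    have hgR : (1 : ℝ) ≤ g := by exact_mod_cast hg1
    have hgx : x₀ ^ 2 ≤ g := hg₀.trans (by exact_mod_cast (le_max_left _ _).trans hg)
    have hdR : (1 : ℝ) ≤ d := by exact_mod_cast hd
    have hdgR : (d : ℝ) ^ 2 ≤ 2 * g := by exact_mod_cast hdg
    have hd2 : (d : ℝ) ≤ 2 * g := by nlinarith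
    set x : ℝ := √(8 * g) with hx
    have hxx : x ^ 2 = 8 * g := Real.sq_sqrt (by positivity)
    have hx0 : x₀ ≤ x := Real.le_sqrt_of_sq_le (by linarith)
    have hxp : 0 < x := by linarith
    have hlx : 1 ≤ Real.log x := by
      rw [Real.le_log_iff_exp_le hxp]
      have := Real.exp_one_lt_three
      linarith
    have hlog8 : Real.log (8 * g) = 2 * Real.log x := by
      rw [← hxx, Real.log_pow]; norm_num
    -- the three factors
    have f1 : Real.log (4 * g * n) ≤ Real.log (8 * g) + Real.log (n + 1) := by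
      rcases Nat.eq_zero_or_pos n with hn | hn
      · subst hn
        rw [Nat.cast_zero, mul_zero, Real.log_zero]
        rw [hlog8]
        simp only [Nat.cast_zero] at hn0
        linarith
      · have hnR : (1 : ℝ) ≤ n := by exact_mod_cast hn
        rw [← Real.log_mul (by positivity) (by positivity)]
        apply Real.log_le_log (by positivity)
        nlinarith
    have f2 : Real.log (4 * d) ≤ Real.log (8 * g) := Real.log_le_log (by positivity) (by linarith)
    have f2' : 0 ≤ Real.log (4 * d) := Real.log_nonneg (by linarith)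
    have f3 : (d : ℝ) ≤ x / 2 := by
      have h2 : (d : ℝ) ^ 2 ≤ (x / 2) ^ 2 := by
        rw [div_pow, hxx]; linarith
      exact (abs_le.1 (abs_le_of_sq_le_sq h2 (by positivity))).2
    have f0 : 0 ≤ 10 ^ 4 + 10 * Real.log (4 * g * n) := by
      rcases Nat.eq_zero_or_pos n with hn | hn
      · subst hn
        rw [Nat.cast_zero, mul_zero, Real.log_zero]
        norm_num
      · have hnR : (1 : ℝ) ≤ n := by exact_mod_cast hn
        have : 0 ≤ Real.log (4 * g * n) := Real.log_nonneg (by nlinarith)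
        linarith
    have f4 : 10 ^ 4 + 10 * Real.log (4 * g * n) ≤ 2 * (K + 10) * Real.log x := by
      rw [hlog8] at f1
      have : K ≤ K * Real.log x := by nlinarith
      nlinarith
    have h3 : (K + 10) ^ 2 * (8 * Real.log x ^ 3) ≤ x := by
      have h4 := h1 x hx0
      rw [div_mul_eq_mul_div, one_mul, le_div_iff₀ (by positivity)] at h4
      linarith
    have hlx0 : 0 ≤ Real.log x := by linarith
    calc (10 ^ 4 + 10 * Real.log (4 * g * n)) ^ 2 * Real.log (4 * d) * d ≤
          (2 * (K + 10) * Real.log x) ^ 2 * (2 * Real.log x) * (x / 2) := by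
          rw [hlog8] at f2
          gcongr
      _ = ((K + 10) ^ 2 * (8 * Real.log x ^ 3)) * x / 2 := by ring
      _ ≤ x * x / 2 := by gcongr
      _ = 4 * g := by rw [← sq, hxx]; ring
  · set c : ℝ := ε / ((|C| + 1) * 3 ^ k) with hc
    have hc0 : 0 < c := by positivity
    obtain ⟨x₀, hx₀, h1⟩ := pow_log_le k hc0
    obtain ⟨g₀, hg₀⟩ := exists_nat_ge (x₀ ^ 2)
    refine ⟨g₀, fun g hg => ?_⟩
    have hgx : x₀ ^ 2 ≤ g := hg₀.trans (by exact_mod_cast hg)
    set x : ℝ := √(g : ℝ) with hx
    have hxx : x ^ 2 = g := Real.sq_sqrt (by positivity)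
    have hx0 : x₀ ≤ x := Real.le_sqrt_of_sq_le hgx
    have hxp : 0 < x := by linarith
    have hlx : 1 ≤ Real.log x := by
      rw [Real.le_log_iff_exp_le hxp]
      have := Real.exp_one_lt_three
      linarith
    have hlog : Real.log g = 2 * Real.log x := by
      rw [← hxx, Real.log_pow]; norm_num
    rw [hlog]
    have h2 : (1 + 2 * Real.log x) ^ k ≤ 3 ^ k * (c * x) := by
      calc (1 + 2 * Real.log x) ^ k ≤ (3 * Real.log x) ^ k := by
            apply pow_le_pow_left₀ (by linarith)
            linarith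
        _ = 3 ^ k * Real.log x ^ k := mul_pow _ _ _
        _ ≤ 3 ^ k * (c * x) := by
            apply mul_le_mul_of_nonneg_left (h1 x hx0) (by positivity)
    have h3 : (1 + 2 * Real.log x) ^ k / x ≤ 3 ^ k * c := by
      rw [div_le_iff₀ hxp]; linarith
    have h4 : 0 ≤ (1 + 2 * Real.log x) ^ k / x := by
      have : 0 ≤ 1 + 2 * Real.log x := by linarith
      positivity
    calc C * ((1 + 2 * Real.log x) ^ k / x) ≤ (|C| + 1) * ((1 + 2 * Real.log x) ^ k / x) := by
          apply mul_le_mul_of_nonneg_right _ h4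
          have := le_abs_self C
          linarith
      _ ≤ (|C| + 1) * (3 ^ k * c) := by gcongr
      _ = ε := by rw [hc]; field_simp
  · obtain ⟨x₀, hx₀, h1⟩ := pow_log_le 1 (c := ε / 4) (by positivity)
    obtain ⟨D₀, hD₀⟩ := exists_nat_ge x₀
    refine ⟨max D₀ 3, le_max_right _ _, fun d hd => ?_⟩
    have hdR : x₀ ≤ d := hD₀.trans (by exact_mod_cast (le_max_left _ _).trans hd)
    have h2 := h1 (4 * d) (by linarith)
    rw [pow_one] at h2
    linarith

end Pool.Agent.Q275.TE
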