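import Pool.Agent.Q29.TE.Stm
import Pool.Agent.Q29.TD.Arith

/-!
# Project TE of helper29, job RATE (arithmetic of the bound), by helper275

Variant of `Pool.Agent.Q29.TD.rate_le` (parts of the proof are adapted from it).
-/

set_option autoImplicit false

namespace Pool.Agent.Q275.TE

open Finset Pool.Agent.Q29.TE Pool.Agent.Q29.TD

theorem t_RATE : S_RATE := by
  intro k ε hk hε
  obtain ⟨C₁, hC₁0, hC₁⟩ := card_divisors_le (ε := ε / 8) (by positivity)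
  set η : ℝ := ε / 64 with hη
  have hη0 : 0 < η := by positivity
  set C₃ : ℝ := 1 + 2 ^ η / η with hC₃
  have hC₃0 : 0 ≤ C₃ := by positivity
  refine ⟨C₃ ^ 16 * (C₁ * 4 ^ (ε / 8)) ^ 2 * 64, by positivity, ?_⟩
  intro g hg hns
  obtain ⟨q, s, t, hq, hqg, hst, hcop, hsq, hs, hs3, ht4⟩ := exists_decomposition hg
  refine ⟨s, t, hst, hcop, hsq, ?_⟩
  have hgR : (0 : ℝ) < g := by exact_mod_cast hg
  have hg1 : (1 : ℝ) ≤ g := by exact_mod_cast hg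
  have hqR : (0 : ℝ) ≤ q := Nat.cast_nonneg q
  have h1 : 1 + Real.log (2 * g) ≤ C₃ * (g : ℝ) ^ η := by
    have h2 : Real.log (2 * g) ≤ (2 * g : ℝ) ^ η / η :=
      Real.log_le_rpow_div (by positivity) hη0
    rw [Real.mul_rpow (by norm_num) hgR.le] at h2
    have h3 : (1 : ℝ) ≤ (g : ℝ) ^ η := Real.one_le_rpow hg1 hη0.le
    calc 1 + Real.log (2 * g) ≤ (g : ℝ) ^ η + 2 ^ η * (g : ℝ) ^ η / η := add_le_add h3 h2
      _ = C₃ * (g : ℝ) ^ η := by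
        rw [hC₃]
        ring
  have hl0 : 0 ≤ 1 + Real.log (2 * g) := by
    have : 0 ≤ Real.log (2 * g) := Real.log_nonneg (by linarith)
    linarith
  have h2 : (1 + Real.log (2 * g)) ^ 16 ≤ C₃ ^ 16 * (g : ℝ) ^ (ε / 4) := by
    calc (1 + Real.log (2 * g)) ^ 16 ≤ (C₃ * (g : ℝ) ^ η) ^ 16 := pow_le_pow_left₀ hl0 h1 16
      _ = C₃ ^ 16 * (g : ℝ) ^ (ε / 4) := by
        rw [mul_pow, ← Real.rpow_natCast ((g : ℝ) ^ η) 16, ← Real.rpow_mul hgR.le]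
        congr 2
        rw [hη]
        push_cast
        ring
  have h3 : (t.divisors.card : ℝ) ≤ C₁ * 4 ^ (ε / 8) * (g : ℝ) ^ (ε / 8) := by
    have h4 : (t : ℝ) ≤ 4 * g := by exact_mod_cast ht4
    calc (t.divisors.card : ℝ) ≤ C₁ * (t : ℝ) ^ (ε / 8) := hC₁ t hsq
      _ ≤ C₁ * (4 * g : ℝ) ^ (ε / 8) := by
        refine mul_le_mul_of_nonneg_left ?_ hC₁0
        exact Real.rpow_le_rpow (Nat.cast_nonneg _) h4 (by positivity)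
      _ = _ := by rw [Real.mul_rpow (by norm_num) hgR.le]; ring
  have h4 : (t.divisors.card : ℝ) ^ 2 ≤ (C₁ * 4 ^ (ε / 8)) ^ 2 * (g : ℝ) ^ (ε / 4) := by
    calc (t.divisors.card : ℝ) ^ 2 ≤ (C₁ * 4 ^ (ε / 8) * (g : ℝ) ^ (ε / 8)) ^ 2 :=
          pow_le_pow_left₀ (Nat.cast_nonneg _) h3 2
      _ = _ := by
        rw [mul_pow, ← Real.rpow_natCast ((g : ℝ) ^ (ε / 8)) 2, ← Real.rpow_mul hgR.le]
        congr 2
        push_cast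
        ring
  have h5 : (s : ℝ) ^ 2 ≤ 64 * (g : ℝ) ^ (6 / (k : ℝ)) := by
    have h6 : (s : ℝ) ≤ (2 * q) ^ 3 := by exact_mod_cast hs3
    have h7 : (q : ℝ) ^ k ≤ g := by exact_mod_cast hns q hqg
    have h8 : (q : ℝ) ≤ (g : ℝ) ^ ((k : ℝ)⁻¹) := by
      calc (q : ℝ) = ((q : ℝ) ^ k) ^ ((k : ℝ)⁻¹) :=
            (Real.pow_rpow_inv_natCast hqR (by omega)).symm
        _ ≤ (g : ℝ) ^ ((k : ℝ)⁻¹) := Real.rpow_le_rpow (by positivity) h7 (by positivity)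
    calc (s : ℝ) ^ 2 ≤ ((2 * q) ^ 3) ^ 2 := pow_le_pow_left₀ (Nat.cast_nonneg _) h6 2
      _ = 64 * (q : ℝ) ^ 6 := by ring
      _ ≤ 64 * ((g : ℝ) ^ ((k : ℝ)⁻¹)) ^ 6 :=
          mul_le_mul_of_nonneg_left (pow_le_pow_left₀ hqR h8 6) (by norm_num)
      _ = 64 * (g : ℝ) ^ (6 / (k : ℝ)) := by
          rw [← Real.rpow_natCast ((g : ℝ) ^ ((k : ℝ)⁻¹)) 6, ← Real.rpow_mul hgR.le]
          congr 2
          push_cast
          ring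
  have hq0 : (0 : ℝ) < (g : ℝ) ^ (1 / 4 : ℝ) := Real.rpow_pos_of_pos hgR _
  rw [div_le_iff₀ hq0]
  have h6 : (g : ℝ) ^ (6 / (k : ℝ) - 1 / 4 + ε) * (g : ℝ) ^ (1 / 4 : ℝ) =
      (g : ℝ) ^ ε * (g : ℝ) ^ (6 / (k : ℝ)) := by
    rw [← Real.rpow_add hgR, ← Real.rpow_add hgR]
    congr 1
    ring
  have h7 : (g : ℝ) ^ (ε / 4) * (g : ℝ) ^ (ε / 4) ≤ (g : ℝ) ^ ε := by
    rw [← Real.rpow_add hgR]
    exact Real.rpow_le_rpow_of_exponent_le hg1 (by linarith)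
  calc (1 + Real.log (2 * g)) ^ 16 * (t.divisors.card : ℝ) ^ 2 * (s : ℝ) ^ 2 ≤
      (C₃ ^ 16 * (g : ℝ) ^ (ε / 4)) * ((C₁ * 4 ^ (ε / 8)) ^ 2 * (g : ℝ) ^ (ε / 4)) *
        (64 * (g : ℝ) ^ (6 / (k : ℝ))) := by gcongr
    _ = C₃ ^ 16 * (C₁ * 4 ^ (ε / 8)) ^ 2 * 64 *
        (((g : ℝ) ^ (ε / 4) * (g : ℝ) ^ (ε / 4)) * (g : ℝ) ^ (6 / (k : ℝ))) := by ring
    _ ≤ C₃ ^ 16 * (C₁ * 4 ^ (ε / 8)) ^ 2 * 64 * ((g : ℝ) ^ ε * (g : ℝ) ^ (6 / (k : ℝ))) := by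
        gcongr
    _ = _ := by rw [← h6, mul_assoc _ _ ((g : ℝ) ^ (1 / 4 : ℝ))]

end Pool.Agent.Q275.TE
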