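import Mathlib
import Pool.Agent.Q29.TE.Stm2

/-!
# Project TE (helper29): the bound for groups of bounded order, second form

Adapted from `Q29/TE/Small.lean`.
-/

set_option linter.unusedSectionVars false
set_option linter.unusedVariables false

namespace Pool.Agent.Q275.TE

open Finset Module Pool.Agent.TH170.MF Pool.Agent.TH170.QC Pool.Agent.TH170.GC Pool.Agent.TH170.QE
  Pool.Agent.Y1.KN Pool.Agent.Y248.KN Pool.Agent.Q29.TE

theorem num_small2 (B n : ℕ) (hn : 1 ≤ n) : ∃ C : ℝ, 0 ≤ C ∧ ∃ m₀ : ℕ,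
    1 ≤ m₀ ∧ ∀ m p : ℕ, m₀ ≤ m → m < p ^ 2 → p ^ 2 ≤ 16 * m →
    ∃ R : ℕ, 1 ≤ R ∧ B < p ∧ n < p ∧ 2 < p ∧ B.factorial * (B * R ^ 2) ^ B < p ∧
      (2 : ℝ) ^ B / (p : ℝ) ^ 2 + (p : ℝ) ^ B * Real.exp (-(Real.pi ^ 2 * m /
        (4 * (n : ℝ) ^ 2 * (p : ℝ) ^ 2) * ((R : ℝ) + 1) ^ 2)) +
        (1 + √(Real.pi / (Real.pi ^ 2 * m / (4 * (n : ℝ) ^ 2 * (p : ℝ) ^ 2)))) ^ B /
          (p : ℝ) ^ 2 ≤ C / m := by
  obtain ⟨p₁, hp₁⟩ := poly_log_lt B
  have hnR : (1 : ℝ) ≤ n := by exact_mod_cast hn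
  set K : ℝ := (1 + 8 * n) ^ B with hK
  have hK1 : 1 ≤ K := one_le_pow₀ (by nlinarith)
  set β : ℝ := 1 / (8 * (n : ℝ) ^ 2) with hβ
  have hβ0 : 0 < β := by positivity
  -- the size of `p`
  set x₁ : ℝ := Real.exp ((B + 4) / β) with hx₁
  refine ⟨2 ^ B + 1 + K, by positivity, (p₁ + B + n + 3 + ⌈x₁⌉₊) ^ 2, Nat.one_le_pow _ _ (by omega), ?_⟩
  intro m p hm hp1 hp2
  have hpm : p₁ + B + n + 3 + ⌈x₁⌉₊ < p := by
    have h1 : (p₁ + B + n + 3 + ⌈x₁⌉₊) ^ 2 < p ^ 2 := lt_of_le_of_lt hm hp1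
    exact lt_of_pow_lt_pow_left₀ 2 (Nat.zero_le _) h1
  have hm0 : 0 < m := lt_of_lt_of_le (Nat.pow_pos (by omega)) hm
  have hmR : (0 : ℝ) < m := by exact_mod_cast hm0
  have hpR : (0 : ℝ) < p := by
    have : 0 < p := by omega
    exact_mod_cast this
  have hpx : x₁ ≤ p := by
    have h1 : ⌈x₁⌉₊ ≤ p := by omega
    exact (Nat.le_ceil x₁).trans (by exact_mod_cast h1)
  have hWm : (m : ℝ) ≤ (p : ℝ) ^ 2 := by exact_mod_cast hp1.le
  have hp2R : (p : ℝ) ^ 2 ≤ 16 * m := by exact_mod_cast hp2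
  have hp3 : (3 : ℝ) ≤ p := by
    have : 3 ≤ p := by omega
    exact_mod_cast this
  have hp1' : (1 : ℝ) ≤ p := by linarith
  have hlog : (B + 4) / β ≤ Real.log p := by rwa [Real.le_log_iff_exp_le hpR]
  have hlog0 : 0 < Real.log p := lt_of_lt_of_le (by positivity) hlog
  set R : ℕ := ⌈Real.log p⌉₊ with hR
  have hR1 : 1 ≤ R := Nat.one_le_iff_ne_zero.2 (Nat.ceil_pos.2 hlog0).ne'
  have hRl : Real.log p ≤ (R : ℝ) + 1 := by
    have := Nat.le_ceil (Real.log p)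
    rw [← hR] at this
    linarith
  set b : ℝ := Real.pi ^ 2 * m / (4 * (n : ℝ) ^ 2 * (p : ℝ) ^ 2) with hb
  have hpi := Real.pi_pos
  have hpi3 := Real.pi_gt_three
  have hpi4 := Real.pi_lt_four
  have hb0 : 0 < b := by positivity
  have hbβ : β ≤ b := by
    rw [hβ, hb, div_le_div_iff₀ (by positivity) (by positivity)]
    have h1 : (4 : ℝ) * (n : ℝ) ^ 2 * (p : ℝ) ^ 2 ≤
        4 * (n : ℝ) ^ 2 * (16 * m) := by gcongr
    have h2 : (9 : ℝ) ≤ Real.pi ^ 2 := by nlinarith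
    have h3 : (9 : ℝ) * (m * (8 * (n : ℝ) ^ 2)) ≤
        Real.pi ^ 2 * (m * (8 * (n : ℝ) ^ 2)) :=
      mul_le_mul_of_nonneg_right h2 (by positivity)
    nlinarith
  refine ⟨R, hR1, by omega, by omega, by omega, hp₁ p (by omega), ?_⟩
  -- the first term
  have t1 : (2 : ℝ) ^ B / (p : ℝ) ^ 2 ≤ 2 ^ B / m := by
    gcongr
  -- the second term
  have t2 : (p : ℝ) ^ B * Real.exp (-(b * ((R : ℝ) + 1) ^ 2)) ≤ 1 / m := by
    have h1 : (B + 4) * Real.log p ≤ b * ((R : ℝ) + 1) ^ 2 := by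
      have h2 : (B : ℝ) + 4 ≤ β * Real.log p := by
        rw [div_le_iff₀ hβ0] at hlog
        linarith
      calc ((B : ℝ) + 4) * Real.log p ≤ (β * Real.log p) * Real.log p := by gcongr
        _ = β * Real.log p ^ 2 := by ring
        _ ≤ b * ((R : ℝ) + 1) ^ 2 := by gcongr
    have h3 : Real.exp (-(b * ((R : ℝ) + 1) ^ 2)) ≤ 1 / (p : ℝ) ^ (B + 4) := by
      calc Real.exp (-(b * ((R : ℝ) + 1) ^ 2)) ≤ Real.exp (-(((B : ℝ) + 4) * Real.log p)) :=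
            Real.exp_le_exp.2 (neg_le_neg h1)
        _ = 1 / (p : ℝ) ^ (B + 4) := by
          rw [Real.exp_neg, one_div]
          congr 1
          rw [show ((B : ℝ) + 4) * Real.log p = ((B + 4 : ℕ) : ℝ) * Real.log p by push_cast; ring,
            Real.exp_nat_mul, Real.exp_log hpR]
    have h4 : (p : ℝ) ^ B * (1 / (p : ℝ) ^ (B + 4)) = 1 / (p : ℝ) ^ 4 := by
      rw [pow_add]
      field_simp
    refine (mul_le_mul_of_nonneg_left h3 (by positivity)).trans ?_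
    rw [h4]
    apply one_div_le_one_div_of_le hmR
    calc (m : ℝ) ≤ (p : ℝ) ^ 2 := hWm
      _ ≤ (p : ℝ) ^ 4 := pow_le_pow_right₀ hp1' (by norm_num)
  -- the third term
  have t3 : (1 + √(Real.pi / b)) ^ B / (p : ℝ) ^ 2 ≤ K / m := by
    have h1 : √(Real.pi / b) ≤ 8 * n := by
      refine Real.sqrt_le_iff.2 ⟨by positivity, ?_⟩
      have h2 : Real.pi / b ≤ Real.pi / β := by gcongr
      refine h2.trans ?_
      rw [hβ, div_div_eq_mul_div, div_one]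
      have h3 : (0 : ℝ) ≤ (n : ℝ) ^ 2 := by positivity
      nlinarith
    have h2 : (1 + √(Real.pi / b)) ^ B ≤ K := by
      rw [hK]
      exact pow_le_pow_left₀ (by positivity) (by linarith) B
    exact div_le_div₀ (by positivity) h2 hmR hWm
  calc _ ≤ 2 ^ B / (m : ℝ) + 1 / m + K / m := add_le_add (add_le_add t1 t2) t3
    _ = (2 ^ B + 1 + K) / m := by ring

theorem t_SMALL2 (hCos : S_COS) (hGauss : S_GAUSS) (hGram : S_GRAM) : S_SMALL2 := by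
  classical
  intro B n
  rcases Nat.eq_zero_or_pos n with hn0 | hn
  · refine ⟨0, 0, le_rfl, ?_⟩
    intro G X _ _ _ _ _ _ m g _ M c D
    exact absurd hn0 D.n0
  obtain ⟨C, hC0, m₀, hm₀, hnum⟩ := num_small2 B n hn
  refine ⟨C, m₀, hC0, ?_⟩
  intro G X _ _ _ _ _ _ m g _ M c D hGB hm S hS x₀ hd3 hc2
  have hm1 : 1 ≤ m := hm₀.trans hm
  set q := Nat.sqrt m with hq
  have hq1 : 1 ≤ q := Nat.sqrt_pos.2 hm1
  have hq2 : q * q ≤ m := Nat.sqrt_le m
  have hq3 : m < (q + 1) * (q + 1) := Nat.lt_succ_sqrt m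
  set P := q + 1 with hP
  have hP0 : P ≠ 0 := by omega
  obtain ⟨p, hp, hPp, hpP⟩ := Nat.exists_prime_lt_and_le_two_mul P hP0
  have hfact : Fact p.Prime := ⟨hp⟩
  have h1 : m < p ^ 2 := by
    calc m < (q + 1) * (q + 1) := hq3
      _ = P ^ 2 := by rw [hP]; ring
      _ ≤ p ^ 2 := Nat.pow_le_pow_left hPp.le 2
  have h2 : p ^ 2 ≤ 16 * m := by
    calc p ^ 2 ≤ (2 * P) ^ 2 := Nat.pow_le_pow_left hpP 2
      _ = 4 * (q + 1) ^ 2 := by rw [hP]; ring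
      _ ≤ 4 * (2 * q) ^ 2 := by gcongr; omega
      _ = 16 * (q * q) := by ring
      _ ≤ 16 * m := by gcongr
  obtain ⟨R, hR1, hBp, hnp, h2p, hRB, hfin⟩ := hnum m p hm h1 h2
  have hp2 : p ≠ 2 := by omega
  have hpG : ¬ p ∣ Nat.card G := fun h => by
    have := Nat.le_of_dvd Nat.card_pos h
    omega
  have hpn : ¬ p ∣ n := fun h => by
    have := Nat.le_of_dvd hn h
    omega
  have hXG : Fintype.card X ≤ Nat.card G := by
    rw [Nat.card_eq_fintype_card]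
    exact Fintype.card_le_of_surjective (fun γ : G => γ • x₀) fun x =>
      MulAction.exists_smul_eq G x₀ x
  have hXB : Fintype.card X ≤ B := hXG.trans hGB
  have hX1 : 1 ≤ Fintype.card X := Fintype.card_pos_iff.2 ⟨x₀⟩
  have hdX : finrank ℚ S ≤ Fintype.card X := by
    have := Submodule.finrank_le S
    rwa [Module.finrank_fintype_fun_eq_card] at this
  have hhd : finrank ℚ (fixedPart G x₀ S) ≤ finrank ℚ S := Submodule.finrank_mono fun u hu => hu.1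
  have heh : edim G S ≤ finrank ℚ (fixedPart G x₀ S) := edim_le D.cc D.cen x₀ hS.2.1 hS.2.2.1
  set d := finrank ℚ S with hd
  set h := finrank ℚ (fixedPart G x₀ S) with hh
  set e := edim G S with he
  have hc2' : 2 ≤ e + (d - h) := hc2
  set b : ℝ := Real.pi ^ 2 * m / (4 * (n : ℝ) ^ 2 * (p : ℝ) ^ 2) with hb
  have hBX : (Fintype.card X).factorial * (Fintype.card X * R ^ 2) ^ Fintype.card X < p := by
    refine lt_of_le_of_lt ?_ hRB
    have h3 : 1 ≤ Fintype.card X * R ^ 2 := Nat.mul_pos hX1 (Nat.pow_pos hR1)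
    calc (Fintype.card X).factorial * (Fintype.card X * R ^ 2) ^ Fintype.card X ≤
        B.factorial * (Fintype.card X * R ^ 2) ^ B :=
          Nat.mul_le_mul (Nat.factorial_le hXB) (Nat.pow_le_pow_right h3 hXB)
      _ ≤ B.factorial * (B * R ^ 2) ^ B :=
          Nat.mul_le_mul_left _ (Nat.pow_le_pow_left (Nat.mul_le_mul_right _ hXB) B)
  have hmain := main_count hCos hGauss hGram hp2 hpG hpn D hS x₀ hBX hb
  have hU := ncard_redSpaces hp2 hpG D.cc D.cen hS.2.1 x₀ (c := c)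
  set U := (redSpaces G p (fun x : X => c • x) S).ncard with hUdef
  have hpR : (0 : ℝ) < p := by exact_mod_cast hp.pos
  have hp1R : (1 : ℝ) ≤ p := by exact_mod_cast hp.one_le
  set E : ℝ := Real.exp (-(b * ((R : ℝ) + 1) ^ 2)) with hE
  have hE0 : 0 < E := Real.exp_pos _
  set Γ : ℝ := 1 + √(Real.pi / b) with hΓ
  have hΓ1 : 1 ≤ Γ := by
    have := Real.sqrt_nonneg (Real.pi / b)
    linarith
  have hU' : (U : ℝ) * ((p - 1 : ℕ) : ℝ) ^ e ≤ (p : ℝ) ^ h := by exact_mod_cast hU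
  have hp1 : (p : ℝ) ≤ 2 * ((p - 1 : ℕ) : ℝ) := by
    have : p ≤ 2 * (p - 1) := by omega
    exact_mod_cast this
  have hU2 : (U : ℝ) * (p : ℝ) ^ e ≤ 2 ^ e * (p : ℝ) ^ h := by
    calc (U : ℝ) * (p : ℝ) ^ e ≤ U * (2 * ((p - 1 : ℕ) : ℝ)) ^ e := by gcongr
      _ = 2 ^ e * (U * ((p - 1 : ℕ) : ℝ) ^ e) := by rw [mul_pow]; ring
      _ ≤ _ := by gcongr
  have hU1 : (U : ℝ) ≤ (p : ℝ) ^ h := by
    have h3 : (1 : ℝ) ≤ ((p - 1 : ℕ) : ℝ) ^ e := by
      refine one_le_pow₀ ?_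
      have : 1 ≤ p - 1 := by omega
      exact_mod_cast this
    nlinarith [Nat.cast_nonneg (α := ℝ) U]
  -- the three terms
  have s1 : (U : ℝ) / (p : ℝ) ^ d ≤ 2 ^ B / (p : ℝ) ^ 2 := by
    rw [div_le_div_iff₀ (by positivity) (by positivity)]
    have h3 : (p : ℝ) ^ e * (p : ℝ) ^ d = (p : ℝ) ^ h * (p : ℝ) ^ (e + (d - h)) := by
      rw [← pow_add, ← pow_add]
      congr 1
      omega
    have h4 : (U : ℝ) * (p : ℝ) ^ 2 * (p : ℝ) ^ e ≤ 2 ^ B * (p : ℝ) ^ d * (p : ℝ) ^ e := by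
      calc (U : ℝ) * (p : ℝ) ^ 2 * (p : ℝ) ^ e = (U * (p : ℝ) ^ e) * (p : ℝ) ^ 2 := by ring
        _ ≤ (2 ^ e * (p : ℝ) ^ h) * (p : ℝ) ^ (e + (d - h)) := by
          gcongr
        _ = 2 ^ e * ((p : ℝ) ^ h * (p : ℝ) ^ (e + (d - h))) := by ring
        _ = 2 ^ e * ((p : ℝ) ^ e * (p : ℝ) ^ d) := by rw [h3]
        _ ≤ 2 ^ B * ((p : ℝ) ^ e * (p : ℝ) ^ d) := by
          refine mul_le_mul_of_nonneg_right (pow_le_pow_right₀ (by norm_num) ?_) (by positivity)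
          omega
        _ = _ := by ring
    exact le_of_mul_le_mul_right h4 (by positivity)
  have s2 : (U : ℝ) * E ≤ (p : ℝ) ^ B * E := by
    refine mul_le_mul_of_nonneg_right (hU1.trans (pow_le_pow_right₀ hp1R ?_)) hE0.le
    omega
  have s3 : Γ ^ Fintype.card X / (p : ℝ) ^ d ≤ Γ ^ B / (p : ℝ) ^ 2 := by
    refine div_le_div₀ (by positivity) (pow_le_pow_right₀ hΓ1 hXB) (by positivity)
      (pow_le_pow_right₀ hp1R hd3)
  have hpd : (0 : ℝ) < (p : ℝ) ^ d := by positivity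
  have h5 : (cntO M c S : ℝ) ≤ 2 ^ (m * g) * ((U : ℝ) / (p : ℝ) ^ d + U * E +
      Γ ^ Fintype.card X / (p : ℝ) ^ d) := by
    rw [← mul_le_mul_iff_left₀ hpd]
    refine hmain.trans (le_of_eq ?_)
    rw [mul_assoc]
    congr 1
    rw [add_mul, add_mul, div_mul_cancel₀ _ hpd.ne', div_mul_cancel₀ _ hpd.ne']
    ring
  refine h5.trans (mul_le_mul_of_nonneg_left ?_ (by positivity))
  exact (add_le_add (add_le_add s1 s2) s3).trans hfin

end Pool.Agent.Q275.TE
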