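import Mathlib

/-!
# Project TE (helper29): finite groups of rational matrices of size two, counting
-/

set_option autoImplicit false

set_option linter.unusedSectionVars false
set_option linter.unusedSimpArgs false

namespace Pool.Agent.Q275.TE

open Finset Matrix

section mat

variable {A : Matrix (Fin 2) (Fin 2) ℚ}

lemma ch (A : Matrix (Fin 2) (Fin 2) ℚ) : A * A = A.trace • A - A.det • (1 : Matrix (Fin 2) (Fin 2) ℚ) := by
  ext i j
  fin_cases i <;> fin_cases j <;>
    simp [Matrix.mul_apply, Fin.sum_univ_two, Matrix.trace_fin_two, Matrix.det_fin_two] <;> ring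

lemma trace_sq (A : Matrix (Fin 2) (Fin 2) ℚ) : (A * A).trace = A.trace ^ 2 - 2 * A.det := by
  simp [Matrix.trace_fin_two, Matrix.det_fin_two, Matrix.mul_apply, Fin.sum_univ_two]
  ring

lemma trace_adj (A : Matrix (Fin 2) (Fin 2) ℚ) : A.adjugate.trace = A.trace := by
  simp [Matrix.adjugate_fin_two, Matrix.trace_fin_two, add_comm]

end mat

variable {G : Type} [Group G] [Fintype G] (M : G →* Matrix (Fin 2) (Fin 2) ℚ)

lemma det_cases (γ : G) : (M γ).det = 1 ∨ (M γ).det = -1 := by
  have h1 : (M γ).det ^ Fintype.card G = 1 := by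
    rw [← Matrix.det_pow, ← map_pow, pow_card_eq_one, map_one, Matrix.det_one]
  have h0 : Fintype.card G ≠ 0 := Fintype.card_ne_zero
  rcases (pow_eq_one_iff_cases).1 h1 with h | h | h
  · exact absurd h h0
  · exact Or.inl h
  · exact Or.inr h.1

lemma det_mul' (γ δ : G) : (M (γ * δ)).det = (M γ).det * (M δ).det := by
  rw [map_mul, Matrix.det_mul]

lemma det_inv' (γ : G) : (M γ⁻¹).det = (M γ).det := by
  have h1 : (M γ⁻¹).det * (M γ).det = 1 := by
    rw [← det_mul', inv_mul_cancel, map_one, Matrix.det_one]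
  rcases det_cases M γ with h | h
  · rw [h, mul_one] at h1; rw [h1, h]
  · rw [h] at h1 ⊢; linarith

/-- traces of the elements of determinant one are at most two -/
lemma tr_le {γ : G} (hγ : (M γ).det = 1) : |(M γ).trace| ≤ 2 := by
  classical
  obtain ⟨δ, hδ, hmax⟩ := Finset.exists_max_image (univ.filter fun γ : G => (M γ).det = 1)
    (fun γ => |(M γ).trace|) ⟨γ, by simpa using hγ⟩
  rw [mem_filter] at hδ
  have h1 := hmax (δ * δ) (by
    rw [mem_filter]
    exact ⟨mem_univ _, by rw [det_mul', hδ.2, mul_one]⟩)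
  rw [map_mul, trace_sq, hδ.2, mul_one] at h1
  have h2 := hmax γ (by simpa using hγ)
  refine h2.trans ?_
  by_contra hcon
  push Not at hcon
  have h3 : (M δ).trace ^ 2 = |(M δ).trace| ^ 2 := (sq_abs _).symm
  have h4 := le_abs_self ((M δ).trace ^ 2 - 2)
  nlinarith

/-- they are integers -/
lemma tr_int {γ : G} (hγ : (M γ).det = 1) : (M γ).trace.den = 1 := by
  classical
  obtain ⟨δ, hδ, hmax⟩ := Finset.exists_max_image (univ.filter fun γ : G => (M γ).det = 1)
    (fun γ => (M γ).trace.den) ⟨γ, by simpa using hγ⟩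
  rw [mem_filter] at hδ
  have h1 := hmax (δ * δ) (by
    rw [mem_filter]
    exact ⟨mem_univ _, by rw [det_mul', hδ.2, mul_one]⟩)
  rw [map_mul, trace_sq, hδ.2, mul_one] at h1
  have e : ((M δ).trace ^ 2 - 2).den = (M δ).trace.den ^ 2 := by
    rw [Rat.sub_ofNat_den, Rat.den_pow]
  rw [e] at h1
  have h2 := hmax γ (by simpa using hγ)
  have h3 : 0 < (M γ).trace.den := Rat.den_pos _
  have h4 : (M δ).trace.den ≤ 1 := by
    by_contra hcon
    push Not at hcon
    nlinarith
  have h5 : (M γ).trace.den ≤ (M δ).trace.den := h2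
  omega

/-- trace two means identity -/
lemma tr_two {γ : G} (hγ : (M γ).det = 1) (ht : (M γ).trace = 2) : M γ = 1 := by
  set N : Matrix (Fin 2) (Fin 2) ℚ := M γ - 1 with hN
  have hMN : M γ = 1 + N := by rw [hN]; abel
  have h0 : N * N = 0 := by
    have h1 := ch (M γ)
    rw [hγ, ht, one_smul] at h1
    have h2 : N * N = M γ * M γ - (2 : ℚ) • M γ + 1 := by
      rw [hN, two_smul]
      noncomm_ring
    rw [h2, h1]
    abel
  have h1 : ∀ n : ℕ, M γ ^ n = 1 + (n : ℚ) • N := by
    intro n
    induction n with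
    | zero => simp
    | succ n ih =>
      rw [pow_succ, ih, hMN, add_mul, one_mul, smul_mul_assoc, mul_add, mul_one, h0, add_zero]
      push_cast
      rw [add_smul, one_smul]
      abel
  have h2 := h1 (Fintype.card G)
  rw [← map_pow, pow_card_eq_one, map_one] at h2
  have h3 : (Fintype.card G : ℚ) • N = 0 := by
    have := h2.symm
    rwa [add_eq_left] at this
  rcases smul_eq_zero.1 h3 with h | h
  · exact absurd h (by exact_mod_cast Fintype.card_ne_zero)
  · rw [hMN, h, add_zero]

/-- reflections have trace zero -/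
lemma tr_refl {γ : G} (hγ : (M γ).det = -1) : (M γ).trace = 0 := by
  have h1 : (M (γ * γ)).det = 1 := by rw [det_mul', hγ]; norm_num
  have h2 := tr_le M h1
  rw [map_mul, trace_sq, hγ] at h2
  have h3 := le_abs_self ((M γ).trace ^ 2 - 2 * -1)
  nlinarith [sq_nonneg (M γ).trace]

lemma tr_inv (γ : G) : (M γ⁻¹).trace = (M γ).trace := by
  rcases det_cases M γ with h | h
  · have h1 : M γ⁻¹ * M γ = 1 := by rw [← map_mul, inv_mul_cancel, map_one]
    have h2 : (M γ).adjugate * M γ = 1 := by rw [Matrix.adjugate_mul, h, one_smul]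
    have h3 : M γ * M γ⁻¹ = 1 := by rw [← map_mul, mul_inv_cancel, map_one]
    have h4 : (M γ).adjugate = M γ⁻¹ := by
      calc (M γ).adjugate = (M γ).adjugate * (M γ * M γ⁻¹) := by rw [h3, mul_one]
        _ = M γ⁻¹ := by rw [← mul_assoc, h2, one_mul]
    rw [← h4, trace_adj]
  · rw [tr_refl M h, tr_refl M (by rw [det_inv', h])]

open Classical in
/-- the elements of determinant one -/
noncomputable def RR : Finset G := univ.filter fun γ : G => (M γ).det = 1

lemma mem_RR {γ : G} : γ ∈ RR M ↔ (M γ).det = 1 := by simp [RR]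

/-- the number of the elements of determinant one is even -/
lemma even_RR {c : G} (hc : M c = -1) (hcc : c * c = 1) : 2 ∣ (RR M).card := by
  classical
  have hcR : (M c).det = 1 := by
    rw [hc]
    simp [Matrix.det_fin_two]
  have hne : c ≠ 1 := by
    rintro rfl
    rw [map_one] at hc
    have := congrFun (congrFun hc 0) 0
    simp at this
    norm_num at this
  have ho : orderOf c = 2 := orderOf_eq_prime (by rw [pow_two, hcc]) hne
  let R : Subgroup G := (Matrix.detMonoidHom.comp M).ker
  have hR : ∀ γ, γ ∈ R ↔ γ ∈ RR M := by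
    intro γ
    rw [mem_RR, MonoidHom.mem_ker]
    rfl
  have h1 : orderOf c ∣ Nat.card R := Subgroup.orderOf_dvd_natCard R ((hR c).2 ((mem_RR M).2 hcR))
  have h2 : Nat.card R = (RR M).card := by
    rw [Nat.card_congr (Equiv.subtypeEquivRight hR), Nat.card_eq_fintype_card, Fintype.card_coe]
  rw [ho, h2] at h1
  exact h1

lemma mem_one : (1 : G) ∈ RR M := by
  rw [mem_RR, map_one, Matrix.det_one]

lemma c_mem {c : G} (hc : M c = -1) : c ∈ RR M := by
  rw [mem_RR, hc]
  simp [Matrix.det_fin_two]

lemma c_ne {c : G} (hc : M c = -1) : (1 : G) ≠ c := by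
  rintro rfl
  rw [map_one] at hc
  have := congrFun (congrFun hc 0) 0
  simp at this
  norm_num at this

lemma two_le {c : G} (hc : M c = -1) : 2 ≤ (RR M).card := by
  classical
  have h1 : ({1, c} : Finset G) ⊆ RR M := by
    intro x hx
    rw [mem_insert, mem_singleton] at hx
    rcases hx with rfl | rfl
    · exact mem_one M
    · exact c_mem M hc
  have h2 := card_le_card h1
  rwa [card_pair (c_ne M hc)] at h2

lemma sum_bounds (hinj : Function.Injective M) {c : G} (hc : M c = -1) (hcc : c * c = 1) :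
    8 ≤ ∑ γ ∈ RR M, (M γ).trace ^ 2 ∧ ∑ γ ∈ RR M, (M γ).trace ^ 2 ≤ 6 + (RR M).card := by
  classical
  have h1 : ({1, c} : Finset G) ⊆ RR M := by
    intro x hx
    rw [mem_insert, mem_singleton] at hx
    rcases hx with rfl | rfl
    · exact mem_one M
    · exact c_mem M hc
  have h2 := Finset.sum_sdiff (f := fun γ => (M γ).trace ^ 2) h1
  have h3 : ∑ γ ∈ ({1, c} : Finset G), (M γ).trace ^ 2 = 8 := by
    rw [sum_pair (c_ne M hc), map_one, hc]
    simp [Matrix.trace_fin_two]
    norm_num
  have h4 : 0 ≤ ∑ γ ∈ RR M \ {1, c}, (M γ).trace ^ 2 := sum_nonneg fun γ _ => sq_nonneg _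
  have h5 : ∑ γ ∈ RR M \ {1, c}, (M γ).trace ^ 2 ≤ ∑ γ ∈ RR M \ {1, c}, (1 : ℚ) := by
    refine sum_le_sum fun γ hγ => ?_
    rw [mem_sdiff, mem_insert, mem_singleton, not_or, mem_RR] at hγ
    obtain ⟨hd, h1', hc'⟩ := hγ
    have ha := tr_le M hd
    have hi := tr_int M hd
    have hn2 : (M γ).trace ≠ 2 := fun h => h1' (hinj (by rw [tr_two M hd h, map_one]))
    have hnm2 : (M γ).trace ≠ -2 := by
      intro h
      have e : M (c * γ) = - M γ := by rw [map_mul, hc, neg_one_mul]
      have hd' : (M (c * γ)).det = 1 := by rw [det_mul', hd, mul_one]; exact (mem_RR M).1 (c_mem M hc)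
      have ht' : (M (c * γ)).trace = 2 := by rw [e, Matrix.trace_neg, h, neg_neg]
      have h6 : c * γ = 1 := hinj (by rw [tr_two M hd' ht', map_one])
      apply hc'
      calc γ = c * (c * γ) := by rw [← mul_assoc, hcc, one_mul]
        _ = c := by rw [h6, mul_one]
    obtain ⟨n, hn⟩ : ∃ n : ℤ, (M γ).trace = n := ⟨(M γ).trace.num, by
      conv_lhs => rw [← Rat.num_div_den (M γ).trace, hi]
      simp⟩
    rw [hn] at ha hn2 hnm2 ⊢
    have ha' : |n| ≤ 2 := by exact_mod_cast ha
    have hn2' : n ≠ 2 := by exact_mod_cast hn2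
    have hnm2' : n ≠ -2 := by exact_mod_cast hnm2
    have h7 : n ^ 2 ≤ 1 := by
      rw [abs_le] at ha'
      have h8 : -1 ≤ n := by omega
      have h9 : n ≤ 1 := by omega
      nlinarith
    exact_mod_cast h7
  have h6 : (RR M \ {1, c}).card + 2 = (RR M).card := by
    rw [card_sdiff_of_subset h1, card_pair (c_ne M hc)]
    have := two_le M hc
    omega
  rw [sum_const, nsmul_eq_mul, mul_one] at h5
  have h7 : (((RR M \ {1, c}).card : ℕ) : ℚ) + 2 = (RR M).card := by exact_mod_cast h6
  constructor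
  · linarith
  · linarith

/-- the first case -/
lemma four_six (hinj : Function.Injective M) {c : G} (hc : M c = -1) (hcc : c * c = 1)
    (hsum : ∑ γ ∈ RR M, (M γ).trace ^ 2 = 2 * (RR M).card) : (RR M).card = 4 ∨ (RR M).card = 6 := by
  obtain ⟨h1, h2⟩ := sum_bounds M hinj hc hcc
  rw [hsum] at h1 h2
  have h3 : 8 ≤ 2 * (RR M).card := by exact_mod_cast h1
  have h4 : 2 * (RR M).card ≤ 6 + (RR M).card := by exact_mod_cast h2
  have h5 := even_RR M hc hcc
  omega

/-- the second case -/
lemma eq_pair (hinj : Function.Injective M) {c : G} (hc : M c = -1) (hcc : c * c = 1)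
    (hsum : ∑ γ ∈ RR M, (M γ).trace ^ 2 = 4 * (RR M).card) {γ : G} (hγ : (M γ).det = 1) :
    γ = 1 ∨ γ = c := by
  classical
  obtain ⟨h1, h2⟩ := sum_bounds M hinj hc hcc
  rw [hsum] at h2
  have h4 : 4 * (RR M).card ≤ 6 + (RR M).card := by exact_mod_cast h2
  have h5 : ({1, c} : Finset G) ⊆ RR M := by
    intro x hx
    rw [mem_insert, mem_singleton] at hx
    rcases hx with rfl | rfl
    · exact mem_one M
    · exact c_mem M hc
  have h6 : ({1, c} : Finset G) = RR M := by
    refine eq_of_subset_of_card_le h5 ?_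
    rw [card_pair (c_ne M hc)]
    omega
  have h7 : γ ∈ ({1, c} : Finset G) := by rw [h6, mem_RR]; exact hγ
  rwa [mem_insert, mem_singleton] at h7

/-- with a reflection, half of the elements have determinant one -/
lemma card_refl {s : G} (hs : (M s).det = -1) : Fintype.card G = 2 * (RR M).card := by
  classical
  have h1 := Finset.card_filter_add_card_filter_not (s := (univ : Finset G)) (fun γ => (M γ).det = 1)
  have h2 : (univ.filter fun γ : G => ¬ (M γ).det = 1).card = (univ.filter fun γ : G => (M γ).det = 1).card := by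
    refine card_bij' (fun γ _ => γ * s) (fun γ _ => γ * s⁻¹) ?_ ?_ ?_ ?_
    · intro γ hγ
      rw [mem_filter] at hγ ⊢
      refine ⟨mem_univ _, ?_⟩
      rw [det_mul', (det_cases M γ).resolve_left hγ.2, hs]
      norm_num
    · intro γ hγ
      rw [mem_filter] at hγ ⊢
      refine ⟨mem_univ _, ?_⟩
      rw [det_mul', hγ.2, det_inv', hs]
      norm_num
    · intro γ _
      rw [mul_inv_cancel_right]
    · intro γ _
      rw [inv_mul_cancel_right]
  have h3 : (RR M).card = (univ.filter fun γ : G => (M γ).det = 1).card := by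
    rw [RR]
  rw [card_univ] at h1
  omega

/-- the sum over all elements -/
lemma sum_all : ∑ γ : G, (M γ).trace ^ 2 = ∑ γ ∈ RR M, (M γ).trace ^ 2 := by
  classical
  refine (sum_subset (subset_univ _) fun γ _ hγ => ?_).symm
  rw [mem_RR] at hγ
  rw [tr_refl M ((det_cases M γ).resolve_left hγ)]
  norm_num

/-- without reflections -/
lemma card_norefl (h : ∀ γ, (M γ).det = 1) : Fintype.card G = (RR M).card := by
  classical
  rw [← card_univ]
  congr 1
  ext γ
  rw [mem_RR]
  simp [h γ]

end Pool.Agent.Q275.TE
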