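import Pool.Agent.Q29.TE.Stm2
import Pool.Agent.Q275.TE.Two0

/-!
# Project TE (helper29), lemma TWO (MP_e12fcd_ag)
-/

set_option autoImplicit false
set_option linter.unusedSectionVars false

namespace Pool.Agent.Q275.TE

open Finset Module Pool.Agent.TH170.MF Pool.Agent.TH170.QC Pool.Agent.TH170.QE Pool.Agent.Y1.KN

section rep

variable {G X : Type} [Group G] [MulAction G X] {S : Submodule ℚ (X → ℚ)}

/-- the representation on an invariant space -/
def rep (hS : Invariant G S) : Representation ℚ G S where
  toFun γ := (tr γ⁻¹).restrict (fun s hs => tr_mem hS γ⁻¹ hs)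
  map_one' := by
    refine LinearMap.ext fun s => Subtype.ext (funext fun x => ?_)
    change (s : X → ℚ) ((1 : G)⁻¹ • x) = (s : X → ℚ) x
    rw [inv_one, one_smul]
  map_mul' γ δ := by
    refine LinearMap.ext fun s => Subtype.ext (funext fun x => ?_)
    change (s : X → ℚ) ((γ * δ)⁻¹ • x) = (s : X → ℚ) (δ⁻¹ • γ⁻¹ • x)
    rw [mul_inv_rev, mul_smul]

lemma rep_apply (hS : Invariant G S) (γ : G) (s : S) (x : X) :
    ((rep hS γ s : S) : X → ℚ) x = (s : X → ℚ) (γ⁻¹ • x) := rfl

/-- composition with the inclusion -/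
def JJ (S : Submodule ℚ (X → ℚ)) : (S →ₗ[ℚ] S) →ₗ[ℚ] (S →ₗ[ℚ] (X → ℚ)) where
  toFun f := S.subtype ∘ₗ f
  map_add' _ _ := rfl
  map_smul' _ _ := rfl

lemma JJ_inj (S : Submodule ℚ (X → ℚ)) : Function.Injective (JJ S) := by
  intro f g h
  refine LinearMap.ext fun s => Subtype.ext ?_
  exact congrArg (fun F => F s) h

/-- the representation on the endomorphisms -/
def repE (hS : Invariant G S) : Representation ℚ G (S →ₗ[ℚ] S) := (rep hS).linHom (rep hS)

lemma repE_apply (hS : Invariant G S) (γ : G) (f : S →ₗ[ℚ] S) :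
    repE hS γ f = rep hS γ ∘ₗ f ∘ₗ rep hS γ⁻¹ := rfl

lemma map_inv (hS : Invariant G S) :
    (Representation.invariants (k := ℚ) (G := G) (V := S →ₗ[ℚ] S) (repE hS)).map (JJ S) = homs G S S := by
  ext A
  rw [Submodule.mem_map]
  constructor
  · rintro ⟨f, hf, rfl⟩
    refine ⟨fun s => (f s).2, fun γ s t h x => ?_⟩
    have h1 : repE hS γ⁻¹ f = f := hf γ⁻¹
    rw [repE_apply] at h1
    have h2 := congrArg (fun F : S →ₗ[ℚ] S => ((F t : S) : X → ℚ) x) h1
    simp only [LinearMap.comp_apply] at h2
    rw [rep_apply, inv_inv] at h2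
    have h3 : rep hS γ t = s := by
      refine Subtype.ext (funext fun y => ?_)
      rw [rep_apply, h (γ⁻¹ • y), smul_inv_smul]
    rw [h3] at h2
    exact h2.symm
  · intro hA
    refine ⟨A.codRestrict S hA.1, ?_, ?_⟩
    · intro γ
      refine LinearMap.ext fun s => Subtype.ext (funext fun x => ?_)
      rw [repE_apply]
      simp only [LinearMap.comp_apply]
      rw [rep_apply]
      change A (rep hS γ⁻¹ s) (γ⁻¹ • x) = A s x
      rw [← smul_inv_smul γ x]
      have h1 := hA.2 γ s (rep hS γ⁻¹ s) (fun y => by rw [rep_apply, inv_inv]) (γ⁻¹ • x)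
      rw [smul_inv_smul γ x]
      rw [smul_inv_smul γ x] at h1
      exact h1
    · rfl

variable [Fintype G] [Fintype X]

lemma char_sum (hS : Invariant G S) :
    ∑ γ : G, LinearMap.trace ℚ S (rep hS γ⁻¹) * LinearMap.trace ℚ S (rep hS γ) =
      (Nat.card G : ℚ) * (edim G S : ℚ) := by
  have hne : (Nat.card G : ℚ) ≠ 0 := by
    have : 0 < Nat.card G := Nat.card_pos
    exact_mod_cast this.ne'
  let _ : Invertible (Nat.card G : ℚ) := invertibleOfNonzero hne
  have h1 := Representation.card_inv_mul_sum_char_eq_finrank (k := ℚ) (G := G) (V := S →ₗ[ℚ] S) (repE hS)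
  have h2 : finrank ℚ (Representation.invariants (k := ℚ) (G := G) (V := S →ₗ[ℚ] S) (repE hS)) = edim G S := by
    rw [edim, ← map_inv hS]
    exact (Submodule.equivMapOfInjective (JJ S) (JJ_inj S) _).finrank_eq
  rw [h2] at h1
  rw [← h1, ← mul_assoc, mul_inv_cancel₀ hne, one_mul]
  refine sum_congr rfl fun γ _ => ?_
  exact (Representation.char_linHom (rep hS) (rep hS) γ).symm

end rep

section two

variable {G X : Type} [Group G] [MulAction G X] [Fintype G] [Fintype X] {S : Submodule ℚ (X → ℚ)}

/-- the matrix representation -/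
noncomputable def MM (hS : Invariant G S) (b : Basis (Fin 2) ℚ S) : G →* Matrix (Fin 2) (Fin 2) ℚ :=
  (LinearMap.toMatrixAlgEquiv b : (S →ₗ[ℚ] S) ≃ₐ[ℚ] Matrix (Fin 2) (Fin 2) ℚ).toMulEquiv.toMonoidHom.comp (rep hS)

lemma MM_apply (hS : Invariant G S) (b : Basis (Fin 2) ℚ S) (γ : G) :
    MM hS b γ = LinearMap.toMatrix b b (rep hS γ) := rfl

lemma MM_trace (hS : Invariant G S) (b : Basis (Fin 2) ℚ S) (γ : G) :
    (MM hS b γ).trace = LinearMap.trace ℚ S (rep hS γ) := by
  rw [MM_apply, LinearMap.trace_eq_matrix_trace ℚ b]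

lemma MM_eq_one (hS : Invariant G S) (b : Basis (Fin 2) ℚ S) (γ : G) (h : MM hS b γ = 1) :
    rep hS γ = 1 := by
  have h1 : LinearMap.toMatrixAlgEquiv b (rep hS γ) = LinearMap.toMatrixAlgEquiv b 1 := by
    rw [map_one]
    exact h
  exact (LinearMap.toMatrixAlgEquiv b).injective h1

lemma rep_eq_one {hS : Invariant G S} (hf : Faith G S) {γ : G} (h : rep hS γ = 1) : γ = 1 := by
  have h1 : γ⁻¹ = 1 := by
    apply hf
    intro s hs x
    have h2 := congrArg (fun F : S →ₗ[ℚ] S => ((F ⟨s, hs⟩ : S) : X → ℚ) x) h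
    rw [rep_apply] at h2
    exact h2
  rwa [inv_eq_one] at h1

lemma MM_inj (hS : Invariant G S) (b : Basis (Fin 2) ℚ S) (hf : Faith G S) :
    Function.Injective (MM hS b) := by
  rw [injective_iff_map_eq_one]
  intro γ h
  exact rep_eq_one hf (MM_eq_one hS b γ h)

lemma MM_c (hS : Invariant G S) (b : Basis (Fin 2) ℚ S) {c : G} (hc : c * c = 1)
    (hSo : AllOdd (fun x : X => c • x) S) : MM hS b c = -1 := by
  have h1 : rep hS c + LinearMap.id = 0 := by
    refine LinearMap.ext fun s => Subtype.ext (funext fun x => ?_)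
    change ((rep hS c s : S) : X → ℚ) x + (s : X → ℚ) x = 0
    rw [rep_apply, inv_eq_of_mul_eq_one_left hc]
    have := hSo s s.2 x
    linarith
  have h3 : LinearMap.toMatrix b b (rep hS c) + LinearMap.toMatrix b b LinearMap.id = 0 := by
    rw [← map_add, h1, map_zero]
  rw [LinearMap.toMatrix_id] at h3
  rw [MM_apply]
  exact eq_neg_of_add_eq_zero_left h3

/-- an element with a fixed vector -/
lemma fixed_det (hS : Invariant G S) (b : Basis (Fin 2) ℚ S) {γ : G} {v : S} (hv : v ≠ 0)
    (h : rep hS γ v = v) : (MM hS b γ).det - (MM hS b γ).trace + 1 = 0 := by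
  have h0 : (MM hS b γ - 1).det = 0 := by
    rw [← Matrix.exists_mulVec_eq_zero_iff]
    refine ⟨b.repr v, ?_, ?_⟩
    · intro h1
      apply hv
      have h2 : b.repr v = 0 := by
        ext i
        exact congrFun h1 i
      exact b.repr.map_eq_zero_iff.1 h2
    · rw [Matrix.sub_mulVec, MM_apply, LinearMap.toMatrix_mulVec_repr, h, Matrix.one_mulVec, sub_self]
  rw [Matrix.det_fin_two] at h0
  simp only [Matrix.sub_apply, Matrix.one_apply] at h0
  rw [Matrix.det_fin_two, Matrix.trace_fin_two]
  norm_num at h0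
  linarith

/-- conversely -/
lemma exists_fixed (hS : Invariant G S) (b : Basis (Fin 2) ℚ S) {γ : G}
    (h : (MM hS b γ).det - (MM hS b γ).trace + 1 = 0) : ∃ v : S, v ≠ 0 ∧ rep hS γ v = v := by
  have h0 : (MM hS b γ - 1).det = 0 := by
    rw [Matrix.det_fin_two, Matrix.trace_fin_two] at h
    rw [Matrix.det_fin_two]
    simp only [Matrix.sub_apply, Matrix.one_apply]
    norm_num
    linarith
  obtain ⟨w, hw0, hw⟩ := Matrix.exists_mulVec_eq_zero_iff.2 h0
  rw [Matrix.sub_mulVec, Matrix.one_mulVec, sub_eq_zero] at hw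
  refine ⟨b.equivFun.symm w, ?_, ?_⟩
  · intro h1
    apply hw0
    exact (LinearEquiv.map_eq_zero_iff _).1 h1
  · apply b.equivFun.injective
    have h2 := LinearMap.toMatrix_mulVec_repr b b (rep hS γ) (b.equivFun.symm w)
    have h3 : (b.repr (b.equivFun.symm w) : Fin 2 → ℚ) = w := b.equivFun.apply_symm_apply w
    rw [h3, ← MM_apply, hw] at h2
    rw [LinearEquiv.apply_symm_apply]
    exact h2.symm

end two

theorem t_TWO : Pool.Agent.Q29.TE.S_TWO := by
  intro G X _ _ _ _ _ _ c hc hcen hfree S hS hf h2 x₀ hec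
  classical
  obtain ⟨hS0, hSi, hSo, hmin⟩ := hS
  have hpos : 0 < edim G S := edim_pos hS0
  have hle := edim_le hc hcen x₀ hSi hSo
  have hfix : fixedPart G x₀ S ≤ S := fun u hu => hu.1
  have hfl : finrank ℚ (fixedPart G x₀ S) ≤ finrank ℚ S := Submodule.finrank_mono hfix
  let b : Basis (Fin 2) ℚ S := finBasisOfFinrankEq ℚ S h2
  set M := MM hSi b with hM
  have hinj : Function.Injective M := MM_inj hSi b hf
  have hMc : M c = -1 := MM_c hSi b hc hSo
  have hcs : ∑ γ ∈ RR M, (M γ).trace ^ 2 = (Fintype.card G : ℚ) * edim G S := by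
    rw [← sum_all M, ← Nat.card_eq_fintype_card, ← char_sum hSi]
    refine sum_congr rfl fun γ _ => ?_
    rw [← MM_trace hSi b, ← MM_trace hSi b, ← hM, tr_inv M, pow_two]
  set H := MulAction.stabilizer G x₀ with hH
  have hHX : Nat.card H * Fintype.card X = Fintype.card G := by
    rw [← Nat.card_eq_fintype_card, ← Nat.card_eq_fintype_card, ← MulAction.index_stabilizer_of_transitive G x₀]
    exact Subgroup.card_mul_index H
  -- all of `S` is fixed if the dimension is two
  have hfixall : finrank ℚ (fixedPart G x₀ S) = 2 → ∀ η ∈ H, η = 1 := by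
    intro h3 η hη
    have h4 : fixedPart G x₀ S = S := Submodule.eq_of_le_of_finrank_eq hfix (by rw [h3, h2])
    apply hf
    intro s hs x
    have h5 : s ∈ fixedPart G x₀ S := by rw [h4]; exact hs
    exact h5.2 η hη x
  rw [codimFix, h2] at hec
  rw [h2] at hfl
  rcases Nat.lt_or_ge (finrank ℚ (fixedPart G x₀ S)) 2 with hlt | hge
  · -- the fixed part is a line
    have h1 : finrank ℚ (fixedPart G x₀ S) = 1 := by omega
    have he : edim G S = 1 := by omega
    rw [he, Nat.cast_one, mul_one] at hcs
    obtain ⟨v, hv0⟩ : ∃ v : fixedPart G x₀ S, v ≠ 0 := by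
      have : Nontrivial (fixedPart G x₀ S) := Module.nontrivial_of_finrank_pos (R := ℚ) (by omega)
      exact exists_ne 0
    have hfx : ∀ η ∈ H, (M η).det - (M η).trace + 1 = 0 := by
      intro η hη
      refine fixed_det hSi b (v := ⟨v, v.2.1⟩) ?_ ?_
      · intro h
        apply hv0
        have := congrArg Subtype.val h
        exact Subtype.ext this
      · refine Subtype.ext (funext fun x => ?_)
        rw [rep_apply]
        exact v.2.2 η⁻¹ (by
          have : η⁻¹ ∈ H := H.inv_mem hη
          exact this) x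
    have hd1 : ∀ η ∈ H, (M η).det = 1 → η = 1 := by
      intro η hη hd
      have h3 := hfx η hη
      rw [hd] at h3
      have h4 : (M η).trace = 2 := by linarith
      exact hinj (by rw [tr_two M hd h4, map_one])
    -- a reflection
    obtain ⟨s, hsH, hsd⟩ : ∃ s ∈ H, (M s).det = -1 := by
      by_contra hcon
      push Not at hcon
      have h3 : ∀ η ∈ H, η = 1 := fun η hη => hd1 η hη ((det_cases M η).resolve_right (hcon η hη))
      have h4 : fixedPart G x₀ S = S := by
        refine le_antisymm hfix fun u hu => ⟨hu, fun η hη x => ?_⟩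
        rw [h3 η hη, one_smul]
      rw [h4, h2] at h1
      omega
    have hs1 : (1 : G) ≠ s := by
      rintro rfl
      rw [map_one, Matrix.det_one] at hsd
      norm_num at hsd
    have hHc : Nat.card H = 2 := by
      have h3 : (H : Set G) = {1, s} := by
        ext η
        simp only [SetLike.mem_coe, Set.mem_insert_iff, Set.mem_singleton_iff]
        constructor
        · intro hη
          rcases det_cases M η with hd | hd
          · exact Or.inl (hd1 η hη hd)
          · right
            have h4 := hd1 (η * s⁻¹) (H.mul_mem hη (H.inv_mem hsH)) (by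
              rw [det_mul', hd, det_inv', hsd]; norm_num)
            exact mul_inv_eq_one.1 h4
        · rintro (rfl | rfl)
          · exact H.one_mem
          · exact hsH
      calc Nat.card H = (H : Set G).ncard := rfl
        _ = 2 := by rw [h3, Set.ncard_pair hs1]
    have hG := card_refl M hsd
    rw [hHc] at hHX
    have hX : Fintype.card X = (RR M).card := by omega
    rw [hX]
    refine four_six M hinj hMc hc ?_
    rw [hcs, hG]
    push_cast
    ring
  · -- the stabilizer is trivial
    have h1 : finrank ℚ (fixedPart G x₀ S) = 2 := by omega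
    have he : edim G S = 2 := by omega
    have hHc : Nat.card H = 1 := by
      have h3 : H = ⊥ := by
        rw [eq_bot_iff]
        intro η hη
        rw [Subgroup.mem_bot]
        exact hfixall h1 η hη
      rw [h3, Subgroup.card_bot]
    rw [hHc, one_mul] at hHX
    rw [hHX]
    by_cases hrefl : ∀ γ, (M γ).det = 1
    · have hG := card_norefl M hrefl
      rw [hG]
      refine four_six M hinj hMc hc ?_
      rw [hcs, he, hG]
      push_cast
      ring
    · exfalso
      push Not at hrefl
      obtain ⟨s, hs⟩ := hrefl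
      have hsd : (M s).det = -1 := (det_cases M s).resolve_left hs
      have hG := card_refl M hsd
      have hsum : ∑ γ ∈ RR M, (M γ).trace ^ 2 = 4 * (RR M).card := by
        rw [hcs, he, hG]
        push_cast
        ring
      have hcomm : ∀ γ : G, γ * s = s * γ := by
        intro γ
        rcases det_cases M γ with hd | hd
        · rcases eq_pair M hinj hMc hc hsum hd with rfl | rfl
          · rw [one_mul, mul_one]
          · exact hcen s
        · have hd' : (M (γ * s⁻¹)).det = 1 := by
            rw [det_mul', hd, det_inv', hsd]; norm_num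
          rcases eq_pair M hinj hMc hc hsum hd' with h | h
          · rw [mul_inv_eq_one.1 h]
          · have h3 : γ = c * s := by rw [← h, inv_mul_cancel_right]
            rw [h3, hcen s, mul_assoc, ← hcen s]
      -- the fixed space of the reflection
      let L : Submodule ℚ (X → ℚ) :=
        { carrier := {u | u ∈ S ∧ ∀ x, u (s⁻¹ • x) = u x}
          zero_mem' := ⟨S.zero_mem, fun x => rfl⟩
          add_mem' := by
            rintro u v ⟨h1, h2⟩ ⟨h3, h4⟩
            exact ⟨S.add_mem h1 h3, fun x => by rw [Pi.add_apply, Pi.add_apply, h2, h4]⟩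
          smul_mem' := by
            rintro r u ⟨h1, h2⟩
            exact ⟨S.smul_mem r h1, fun x => by rw [Pi.smul_apply, Pi.smul_apply, h2]⟩ }
      have hLS : L ≤ S := fun u hu => hu.1
      have hLi : Invariant G L := by
        intro γ u hu
        refine ⟨hSi γ u hu.1, fun x => ?_⟩
        change u (γ • s⁻¹ • x) = u (γ • x)
        have h3 : γ • s⁻¹ • x = s⁻¹ • γ • x := by
          rw [smul_smul, smul_smul]
          congr 1
          rw [mul_inv_eq_iff_eq_mul, mul_assoc, hcomm γ, inv_mul_cancel_left]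
        rw [h3]
        exact hu.2 _
      have htr : (M s).trace = 0 := tr_refl M hsd
      rcases hmin L hLi hLS with h3 | h3
      · obtain ⟨v, hv0, hv⟩ := exists_fixed hSi b (γ := s) (by
          change (M s).det - (M s).trace + 1 = 0
          rw [hsd, htr]; norm_num)
        apply hv0
        have h4 : (v : X → ℚ) ∈ L := by
          refine ⟨v.2, fun x => ?_⟩
          have h5 := congrArg (fun w : S => (w : X → ℚ) x) hv
          exact h5
        rw [h3, Submodule.mem_bot] at h4
        exact Subtype.ext h4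
      · have h4 : s⁻¹ = 1 := by
          apply hf
          intro u hu x
          have h5 : u ∈ L := by rw [h3]; exact hu
          exact h5.2 x
        rw [inv_eq_one] at h4
        rw [h4, map_one, Matrix.det_one] at hsd
        norm_num at hsd

end Pool.Agent.Q275.TE
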